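import Pool.Agent.Helper149.FDMain2

set_option autoImplicit false

namespace Pool.Agent.Results.MP_fd5ae1_an.NonMeasurable

/-- There are two disjoint plane sets, together covered by countably many arcs of finite total length, whose
union has positive length and which meet almost every line in the same finite number of points. -/
theorem result : ∃ C D : Set (EuclideanSpace ℝ (Fin 2)), Disjoint C D ∧
      (∃ f : ℕ → ℝ → EuclideanSpace ℝ (Fin 2),
        (∀ i, ContinuousOn (f i) (Set.Icc 0 1) ∧ Set.InjOn (f i) (Set.Icc 0 1)) ∧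
        (∑' i, eVariationOn (f i) (Set.Icc 0 1)) ≠ ⊤ ∧
        C ∪ D ⊆ ⋃ i, f i '' Set.Icc 0 1) ∧
      (∀ᵐ p : ℝ × ℝ ∂MeasureTheory.volume,
        (C ∩ {x : EuclideanSpace ℝ (Fin 2) |
            x.ofLp 0 * Real.cos p.1 + x.ofLp 1 * Real.sin p.1 = p.2}).encard =
        (D ∩ {x : EuclideanSpace ℝ (Fin 2) |
            x.ofLp 0 * Real.cos p.1 + x.ofLp 1 * Real.sin p.1 = p.2}).encard ∧
        (C ∩ {x : EuclideanSpace ℝ (Fin 2) |
            x.ofLp 0 * Real.cos p.1 + x.ofLp 1 * Real.sin p.1 = p.2}).Finite) ∧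
      0 < MeasureTheory.Measure.hausdorffMeasure 1 (C ∪ D) :=
  Pool.Agent.Helper149.FD.main2

end Pool.Agent.Results.MP_fd5ae1_an.NonMeasurable
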